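import Mathlib
import Pool.Agent.Helper35.HSF.StA

/-!
Project HSF (MP_925021_gt), module ALC: the component relation does not depend on the direction.
-/

set_option autoImplicit false

namespace Helper89.HSF

open Helper35.HSF Helper35.MS Helper35.PI Helper35.PI2 Helper32.CL
open scoped ContDiff Manifold Topology ENNReal BigOperators
open MeasureTheory Set Filter

/-- For a compact set `K` on which `⟨g, a⟩ > 0`, the same holds for all directions near `a`. -/
theorem alc_pos {N : ℕ} {M : Type} [TopologicalSpace M] (g : M → EE N) (hg : Continuous g)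
    (K : Set M) (hK : IsCompact K) (a : EE N) (h : ∀ y ∈ K, 0 < (inner ℝ (g y) a : ℝ)) :
    ∀ᶠ b in 𝓝 a, ∀ y ∈ K, 0 < (inner ℝ (g y) b : ℝ) := by
  refine hK.eventually_forall_of_forall_eventually
    (P := fun b y => 0 < (inner ℝ (g y) b : ℝ)) ?_
  intro y hy
  have hc : Continuous fun z : EE N × M => (inner ℝ (g z.2) z.1 : ℝ) :=
    (hg.comp continuous_snd).inner continuous_fst
  exact hc.continuousAt.eventually (lt_mem_nhds (h y hy))

/-- For a compact set `K` on which `⟨g, a⟩ < 0`, the same holds for all directions near `a`. -/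
theorem alc_neg {N : ℕ} {M : Type} [TopologicalSpace M] (g : M → EE N) (hg : Continuous g)
    (K : Set M) (hK : IsCompact K) (a : EE N) (h : ∀ y ∈ K, (inner ℝ (g y) a : ℝ) < 0) :
    ∀ᶠ b in 𝓝 a, ∀ y ∈ K, (inner ℝ (g y) b : ℝ) < 0 := by
  refine hK.eventually_forall_of_forall_eventually
    (P := fun b y => (inner ℝ (g y) b : ℝ) < 0) ?_
  intro y hy
  have hc : Continuous fun z : EE N × M => (inner ℝ (g z.2) z.1 : ℝ) :=
    (hg.comp continuous_snd).inner continuous_fst
  exact hc.continuousAt.eventually (gt_mem_nhds (h y hy))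

/-- The relation is open in the direction. -/
theorem alc_open {n N : ℕ} {M : Type} [TopologicalSpace M] [ChartedSpace (EE n) M]
    (g : M → EE N) (hg : Continuous g) (x x' : M) (a : EE N) (hx : 0 < (inner ℝ (g x) a : ℝ))
    (h : x' ∈ connectedComponentIn {y | 0 < (inner ℝ (g y) a : ℝ)} x) :
    ∀ᶠ b in 𝓝 a, x' ∈ connectedComponentIn {y | 0 < (inner ℝ (g y) b : ℝ)} x := by
  have hlp : LocallyPathConnectedSpace M := ChartedSpace.locallyPathConnectedSpace (EE n) M
  have hlc : LocallyConnectedSpace M := ChartedSpace.locallyConnectedSpace (EE n) M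
  have ho : IsOpen {y | 0 < (inner ℝ (g y) a : ℝ)} :=
    isOpen_lt continuous_const (hg.inner continuous_const)
  set C : Set M := connectedComponentIn {y | 0 < (inner ℝ (g y) a : ℝ)} x with hC
  have hCo : IsOpen C := ho.connectedComponentIn
  have hxC : x ∈ C := mem_connectedComponentIn hx
  have hCc : IsConnected C := ⟨⟨x, hxC⟩, isPreconnected_connectedComponentIn⟩
  have hCp : IsPathConnected C := (hCo.isConnected_iff_isPathConnected).1 hCc
  obtain ⟨γ, hγ⟩ := hCp.joinedIn x hxC x' h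
  have hK : IsCompact (range γ) := isCompact_range γ.continuous
  have hKC : IsPreconnected (range γ) := isPreconnected_range γ.continuous
  have hpos : ∀ y ∈ range γ, 0 < (inner ℝ (g y) a : ℝ) := by
    rintro _ ⟨t, rfl⟩
    exact connectedComponentIn_subset {y | 0 < (inner ℝ (g y) a : ℝ)} x (hγ t)
  filter_upwards [alc_pos g hg (range γ) hK a hpos] with b hb
  exact hKC.subset_connectedComponentIn ⟨0, γ.source⟩ hb ⟨1, γ.target⟩

/-- The negation of the relation is open in the direction. -/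
theorem alc_open' (hACL : StACL) {n N : ℕ} {M : Type} [TopologicalSpace M] [T2Space M]
    [CompactSpace M] [ChartedSpace (EE n) M]
    (g : M → EE N) (hg : Continuous g)
    (hL : ∀ a : EE N, a ≠ 0 → LPr (fun y => (inner ℝ (g y) a : ℝ))) (x x' : M) (a : EE N)
    (hx : 0 < (inner ℝ (g x) a : ℝ)) (hx' : 0 < (inner ℝ (g x') a : ℝ))
    (h : x' ∉ connectedComponentIn {y | 0 < (inner ℝ (g y) a : ℝ)} x) :
    ∀ᶠ b in 𝓝 a, x' ∉ connectedComponentIn {y | 0 < (inner ℝ (g y) b : ℝ)} x := by
  have hlc : LocallyConnectedSpace M := ChartedSpace.locallyConnectedSpace (EE n) M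
  have ha : a ≠ 0 := by
    rintro rfl
    simp at hx
  have hφ : Continuous fun y => (inner ℝ (g y) a : ℝ) := hg.inner continuous_const
  obtain ⟨-, hCs, hcl, hnc⟩ := hACL M (fun y => (inner ℝ (g y) a : ℝ)) hφ (hL a ha) x hx _ rfl
  set C : Set M := connectedComponentIn {y | 0 < (inner ℝ (g y) a : ℝ)} x with hC
  have hxC : x ∈ C := mem_connectedComponentIn hx
  have hdis : Disjoint (closure C) ({y | 0 ≤ (inner ℝ (g y) a : ℝ)} \ closure C) :=
    disjoint_sdiff_self_right
  obtain ⟨O₁, O₂, hO₁, hO₂, h₁, h₂, hd⟩ :=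
    SeparatedNhds.of_isCompact_isCompact isClosed_closure.isCompact hcl.isCompact hdis
  have hK : IsCompact ((O₁ ∪ O₂)ᶜ) := (hO₁.union hO₂).isClosed_compl.isCompact
  have hneg : ∀ y ∈ (O₁ ∪ O₂)ᶜ, (inner ℝ (g y) a : ℝ) < 0 := by
    intro y hy
    by_contra hc
    have hc' : 0 ≤ (inner ℝ (g y) a : ℝ) := not_lt.1 hc
    by_cases hyC : y ∈ closure C
    · exact hy (Or.inl (h₁ hyC))
    · exact hy (Or.inr (h₂ ⟨hc', hyC⟩))
  filter_upwards [alc_neg g hg _ hK a hneg,
    (continuous_const.inner continuous_id : Continuous fun b : EE N =>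
      (inner ℝ (g x) b : ℝ)).continuousAt.eventually (lt_mem_nhds hx)] with b hb hxb hmem
  have hsub : connectedComponentIn {y | 0 < (inner ℝ (g y) b : ℝ)} x ⊆ O₁ ∪ O₂ := by
    intro y hy
    by_contra hc
    have h1 : 0 < (inner ℝ (g y) b : ℝ) :=
      connectedComponentIn_subset {y | 0 < (inner ℝ (g y) b : ℝ)} x hy
    have h2 := hb y hc
    linarith
  have hpre : IsPreconnected (connectedComponentIn {y | 0 < (inner ℝ (g y) b : ℝ)} x) :=
    isPreconnected_connectedComponentIn
  have hx1 : x ∈ O₁ := h₁ (subset_closure hxC)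
  have hx2 : x' ∈ O₂ := h₂ ⟨hx'.le, hnc x' hx' h⟩
  obtain ⟨z, -, hz1, hz2⟩ := hpre O₁ O₂ hO₁ hO₂ hsub
    ⟨x, mem_connectedComponentIn hxb, hx1⟩ ⟨x', hmem, hx2⟩
  exact Set.disjoint_left.1 hd hz1 hz2

theorem hALC (hACL : StACL) : StALC := by
  intro n N M _ _ _ _ g hg hL x x' a a' h1 h2 h3 h4 hmem
  by_contra hno
  set Λ : Set (EE N) := {b | 0 < (inner ℝ (g x) b : ℝ) ∧ 0 < (inner ℝ (g x') b : ℝ)} with hΛ
  have hconv : Convex ℝ Λ := by
    have c1 : Convex ℝ {b : EE N | 0 < (inner ℝ (g x) b : ℝ)} :=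
      convex_halfSpace_gt (f := fun b : EE N => (inner ℝ (g x) b : ℝ))
        ⟨fun u v => inner_add_right _ _ _, fun c u => by simp [inner_smul_right]⟩ 0
    have c2 : Convex ℝ {b : EE N | 0 < (inner ℝ (g x') b : ℝ)} :=
      convex_halfSpace_gt (f := fun b : EE N => (inner ℝ (g x') b : ℝ))
        ⟨fun u v => inner_add_right _ _ _, fun c u => by simp [inner_smul_right]⟩ 0
    exact c1.inter c2
  have hpre : IsPreconnected Λ := hconv.isPreconnected
  let P : EE N → Prop := fun b => x' ∈ connectedComponentIn {y | 0 < (inner ℝ (g y) b : ℝ)} x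
  obtain ⟨z, hzΛ, hz1, hz2⟩ := hpre (interior {b | P b}) (interior {b | ¬ P b}) isOpen_interior
    isOpen_interior (by
      rintro b ⟨hb1, hb2⟩
      by_cases hP : P b
      · left
        rw [mem_interior_iff_mem_nhds]
        exact alc_open (n := n) g hg x x' b hb1 hP
      · right
        rw [mem_interior_iff_mem_nhds]
        exact alc_open' hACL (n := n) g hg hL x x' b hb1 hb2 hP)
    ⟨a, ⟨h1, h2⟩, by
      rw [mem_interior_iff_mem_nhds]
      exact alc_open (n := n) g hg x x' a h1 hmem⟩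
    ⟨a', ⟨h3, h4⟩, by
      rw [mem_interior_iff_mem_nhds]
      exact alc_open' hACL (n := n) g hg hL x x' a' h3 h4 hno⟩
  have e1 : z ∈ {b | P b} := interior_subset hz1
  have e2 : z ∈ {b | ¬ P b} := interior_subset hz2
  exact e2 e1

end Helper89.HSF
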