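import Mathlib
import Pool.Agent.Helper35.HSF.StD

/-!
Project HSF (MP_925021_gt), module LGM: the normalised flow converges.
-/

set_option autoImplicit false

namespace Helper89.HSF

open Helper35.HSF Helper35.MS Helper35.PI Helper35.PI2 Helper32.CL
open scoped ContDiff Manifold Topology ENNReal BigOperators
open MeasureTheory Set Filter

/-- minus the remaining distance -/
private noncomputable def GaN (n : ℕ) (C α s : ℝ) : ℝ := -(C / (2 * α)) * (rr n s) ^ α

private lemma rr_deriv (n : ℕ) (s : ℝ) : HasDerivAt (fun s : ℝ => rr n s) (-(2 * n)) s := by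
  have h1 : HasDerivAt (fun s : ℝ => 1 - 2 * (n : ℝ) * s) (-(2 * n)) s := by
    simpa using ((hasDerivAt_id s).const_mul (2 * (n : ℝ))).const_sub 1
  exact h1

private lemma GaN_deriv (n : ℕ) (C α s : ℝ) (hα : 0 < α) (hs : 0 < rr n s) :
    HasDerivAt (GaN n C α) (n * C * (rr n s) ^ (α - 1)) s := by
  have h3 : HasDerivAt (fun s : ℝ => (rr n s) ^ α)
      (-(2 * (n : ℝ)) * α * (rr n s) ^ (α - 1)) s := (rr_deriv n s).rpow_const (Or.inl hs.ne')
  have h4 := h3.const_mul (-(C / (2 * α)))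
  have e : -(C / (2 * α)) * (-(2 * (n : ℝ)) * α * (rr n s) ^ (α - 1)) =
      n * C * (rr n s) ^ (α - 1) := by
    field_simp
  rw [e] at h4
  exact h4

private lemma b_deriv (n : ℕ) (s : ℝ) (hs : 0 < rr n s) :
    HasDerivAt (fun s : ℝ => 1 / Real.sqrt (rr n s))
      (1 / Real.sqrt (rr n s) * (n / rr n s)) s := by
  have h2 : HasDerivAt (fun s : ℝ => Real.sqrt (rr n s))
      (-(2 * (n : ℝ)) / (2 * Real.sqrt (rr n s))) s :=
    (rr_deriv n s).sqrt hs.ne'
  have hr : 0 < Real.sqrt (rr n s) := Real.sqrt_pos.mpr hs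
  have h3 := h2.inv hr.ne'
  have hrr : Real.sqrt (rr n s) ^ 2 = rr n s := Real.sq_sqrt hs.le
  have e : -(-(2 * (n : ℝ)) / (2 * Real.sqrt (rr n s))) / Real.sqrt (rr n s) ^ 2 =
      1 / Real.sqrt (rr n s) * (n / rr n s) := by
    rw [hrr]
    field_simp
  rw [e] at h3
  have e2 : (fun s : ℝ => 1 / Real.sqrt (rr n s)) =
      (fun s : ℝ => Real.sqrt (rr n s))⁻¹ := by
    funext s
    simp
  rw [e2]
  exact h3

private lemma speedN (n : ℕ) (C α τ h : ℝ) (hC : 0 < C) (hτ : 0 < τ)
    (hu : h ^ 2 ≤ (n * (C * τ ^ (α - 1 / 2))) ^ 2) :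
    1 / Real.sqrt τ * |h| ≤ n * C * τ ^ (α - 1) := by
  have hp : 0 < τ ^ (α - 1 / 2) := Real.rpow_pos_of_pos hτ _
  have h1 : |h| ≤ n * (C * τ ^ (α - 1 / 2)) := by
    refine abs_le_of_sq_le_sq hu (by positivity)
  have h2 : τ ^ (α - 1) = τ ^ (α - 1 / 2) / Real.sqrt τ := by
    rw [Real.sqrt_eq_rpow, ← Real.rpow_sub hτ]
    congr 1
    ring
  have hr : 0 < Real.sqrt τ := Real.sqrt_pos.mpr hτ
  rw [h2, div_mul_eq_mul_div, one_mul, mul_div_assoc', div_le_div_iff_of_pos_right hr]
  linarith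

/-- LGM. The normalised flow converges. -/
theorem hLGM (hEVF : StEVF) (hHNB : StHNB) : StLGM := by
  intro n hn M _ _ _ _ _ T F ν hF hT C α t₁ hC hα ht₁ hyp
  have hJ : ∀ t ∈ Ico t₁ T, t ∈ Ioo 0 T := fun t ht => ⟨ht₁.1.trans_le ht.1, ht.2⟩
  have hn0 : (0 : ℝ) < n := by exact_mod_cast hn
  have hrrp : ∀ t, t < T → 0 < rr n t := by
    intro t ht
    have : rr n t = 2 * n * (T - t) := by
      unfold rr
      rw [mul_sub, hT]
    rw [this]
    have : 0 < T - t := by linarith
    positivity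
  set Φ : M → ℝ → EE (n + 2) := fun q t => (1 / Real.sqrt (rr n t)) • F q t with hΦ
  have hder : ∀ q : M, ∀ t ∈ Ico t₁ T, HasDerivAt (fun t => Φ q t)
      ((1 / Real.sqrt (rr n t)) • (Hs n F ν q t • ν q t)) t := by
    intro q t ht
    have h1 := (b_deriv n t (hrrp t ht.2)).smul (hF.mcf.flow q t (hJ t ht))
    obtain ⟨-, -, h2⟩ := hEVF n hn M (Ioo 0 T) F ν hF
    obtain ⟨h3, -⟩ := h2 q t (hJ t ht)
    have e : (1 / Real.sqrt (rr n t)) • (Hs n F ν q t • ν q t) =
        (1 / Real.sqrt (rr n t)) • HH (n := n) F q t +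
        (1 / Real.sqrt (rr n t) * (n / rr n t)) • F q t := by
      rw [h3, smul_sub, smul_smul (1 / Real.sqrt (rr n t)) (n / rr n t)]
      abel
    rw [e]
    exact h1
  have hsp : ∀ q : M, ∀ t ∈ Ico t₁ T, ‖(1 / Real.sqrt (rr n t)) • (Hs n F ν q t • ν q t)‖ ≤
      n * C * (rr n t) ^ (α - 1) := by
    intro q t ht
    have hr : 0 < Real.sqrt (rr n t) := Real.sqrt_pos.mpr (hrrp t ht.2)
    rw [norm_smul, norm_smul, hF.nν q t (hJ t ht), mul_one, Real.norm_eq_abs,
      abs_of_pos (by positivity), Real.norm_eq_abs]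
    refine speedN n C α (rr n t) _ hC (hrrp t ht.2) ?_
    obtain ⟨h0, h1, -, -, -, -, h2⟩ := hHNB n hn M (Ioo 0 T) F ν hF q t (hJ t ht)
    have h3 := h2 (C * rr n t ^ (α - 1 / 2)) (fun c hc => hyp t ht q _ (Or.inr ⟨c, hc, rfl⟩))
    have h4 := mul_le_mul_of_nonneg_left h3 hn0.le
    nlinarith [h1, h4]
  -- distance along the flow
  have hdist : ∀ q : M, ∀ t s : ℝ, t₁ ≤ t → t ≤ s → s < T →
      ‖Φ q s - Φ q t‖ ≤ GaN n C α s - GaN n C α t := by
    intro q t s h1 h2 h3
    have hin : ∀ x ∈ Icc t s, x ∈ Ico t₁ T := fun x hx => ⟨h1.trans hx.1, hx.2.trans_lt h3⟩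
    have key := image_norm_le_of_norm_deriv_right_le_deriv_boundary'
      (f := fun x => Φ q x - Φ q t)
      (f' := fun x => (1 / Real.sqrt (rr n x)) • (Hs n F ν q x • ν q x)) (a := t) (b := s)
      (B := fun x => GaN n C α x - GaN n C α t)
      (B' := fun x => n * C * (rr n x) ^ (α - 1))
      (fun x hx => (((hder q x (hin x hx)).sub_const
        (Φ q t)).continuousAt).continuousWithinAt)
      (fun x hx => (((hder q x (hin x (Ico_subset_Icc_self hx))).sub_const
        (Φ q t)).hasDerivWithinAt))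
      (by simp)
      (fun x hx => (((GaN_deriv n C α x hα (hrrp x (hin x hx).2)).sub_const
        (GaN n C α t)).continuousAt).continuousWithinAt)
      (fun x hx => ((GaN_deriv n C α x hα (hrrp x (hin x (Ico_subset_Icc_self hx)).2)).sub_const
        (GaN n C α t)).hasDerivWithinAt)
      (fun x hx => hsp q x (hin x (Ico_subset_Icc_self hx)))
    exact key ⟨h2, le_rfl⟩
  have hGneg : ∀ s, s < T → GaN n C α s ≤ 0 := by
    intro s hs
    have h0 : 0 < rr n s := hrrp s hs
    unfold GaN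
    have h2 : 0 ≤ C / (2 * α) * (rr n s) ^ α := by positivity
    linarith
  -- the sequence of times
  set u : ℕ → ℝ := fun k => T - (T - t₁) / ((k : ℝ) + 1) with hu
  have hTts : 0 < T - t₁ := by linarith [ht₁.2]
  have hu1 : ∀ k, t₁ ≤ u k := by
    intro k
    have hk : (0 : ℝ) < (k : ℝ) + 1 := by positivity
    have : (T - t₁) / ((k : ℝ) + 1) ≤ T - t₁ := by
      rw [div_le_iff₀ hk]
      nlinarith [Nat.cast_nonneg (α := ℝ) k]
    simp only [hu]
    linarith
  have hu2 : ∀ k, u k < T := by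
    intro k
    have : 0 < (T - t₁) / ((k : ℝ) + 1) := by positivity
    simp only [hu]
    linarith
  have hu3 : ∀ k m, k ≤ m → u k ≤ u m := by
    intro k m h
    simp only [hu]
    have : (T - t₁) / ((m : ℝ) + 1) ≤ (T - t₁) / ((k : ℝ) + 1) := by
      apply div_le_div_of_nonneg_left hTts.le (by positivity)
      have : (k : ℝ) ≤ m := by exact_mod_cast h
      linarith
    linarith
  have hu4 : Tendsto (fun k => T - u k) atTop (𝓝 0) := by
    have h1 : (fun k => T - u k) = fun k : ℕ => (T - t₁) * (1 / ((k : ℝ) + 1)) := by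
      funext k
      simp only [hu]
      ring
    rw [h1]
    have := tendsto_one_div_add_atTop_nhds_zero_nat (𝕜 := ℝ) |>.const_mul (T - t₁)
    rwa [mul_zero] at this
  have hG0 : Tendsto (fun k => GaN n C α (u k)) atTop (𝓝 0) := by
    unfold GaN
    have h1 : Tendsto (fun k => rr n (u k)) atTop (𝓝 0) := by
      have h2 : (fun k => rr n (u k)) = fun k => 2 * n * (T - u k) := by
        funext k
        unfold rr
        rw [mul_sub (2 * (n : ℝ)) T (u k), hT]
      rw [h2]
      have := hu4.const_mul (2 * (n : ℝ))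
      rwa [mul_zero] at this
    have h2 : Tendsto (fun k => (rr n (u k)) ^ α) atTop (𝓝 0) := by
      have := ((Real.continuous_rpow_const hα.le).tendsto 0).comp h1
      rwa [Real.zero_rpow hα.ne'] at this
    have := h2.const_mul (-(C / (2 * α)))
    rwa [mul_zero] at this
  -- the limit
  have hcau : ∀ q : M, CauchySeq (fun k => Φ q (u k)) := by
    intro q
    refine cauchySeq_of_le_tendsto_0 (fun k => 2 * (-GaN n C α (u k))) ?_ ?_
    · intro l m k hl hm
      have h1 := hdist q (u k) (u l) (hu1 k) (hu3 k l hl) (hu2 l)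
      have h2 := hdist q (u k) (u m) (hu1 k) (hu3 k m hm) (hu2 m)
      have h3 := hGneg (u l) (hu2 l)
      have h4 := hGneg (u m) (hu2 m)
      have h5 : dist (Φ q (u l)) (Φ q (u m)) ≤
          ‖Φ q (u l) - Φ q (u k)‖ + ‖Φ q (u m) - Φ q (u k)‖ := by
        rw [← dist_eq_norm, ← dist_eq_norm]
        exact dist_triangle_right _ _ _
      linarith
    · have := hG0.neg.const_mul 2
      simpa using this
  choose G hG using fun q => cauchySeq_tendsto_of_complete (hcau q)
  have hneg : ∀ t, -GaN n C α t = C / (2 * α) * (rr n t) ^ α := by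
    intro t
    unfold GaN
    ring
  have hest : ∀ t ∈ Ico t₁ T, ∀ q, ‖Φ q t - G q‖ ≤ C / (2 * α) * (rr n t) ^ α := by
    intro t ht q
    have hlim : Tendsto (fun k => ‖Φ q t - Φ q (u k)‖) atTop (𝓝 ‖Φ q t - G q‖) :=
      ((hG q).const_sub _).norm
    refine le_of_tendsto hlim ?_
    have h0 : ∀ᶠ k in atTop, T - u k < T - t := hu4.eventually (gt_mem_nhds (by linarith [ht.2]))
    filter_upwards [h0] with k hk
    have h1 := hdist q t (u k) ht.1 (by linarith) (hu2 k)
    have h2 := hGneg (u k) (hu2 k)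
    rw [norm_sub_rev, ← hneg]
    linarith
  have hcF : ∀ t ∈ Ioo 0 T, Continuous (fun q => F q t) := by
    intro t ht
    have h1 : ContinuousOn (fun z : M × ℝ => F z.1 z.2) (univ ×ˢ Ioo 0 T) :=
      hF.mcf.smooth.continuousOn
    have h2 : Continuous (fun q : M => ((q, t) : M × ℝ)) := by fun_prop
    exact h1.comp_continuous h2 (fun q => ⟨mem_univ _, ht⟩)
  refine ⟨G, C / (2 * α), ?_, by positivity, hest⟩
  -- continuity: uniform limit
  have hunif : TendstoUniformly (fun k q => Φ q (u k)) G atTop := by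
    rw [Metric.tendstoUniformly_iff]
    intro ε hε
    have h1 : ∀ᶠ k in atTop, -GaN n C α (u k) < ε := by
      have := hG0.neg
      rw [neg_zero] at this
      exact this.eventually (gt_mem_nhds hε)
    filter_upwards [h1] with k hk q
    rw [dist_comm, dist_eq_norm]
    refine lt_of_le_of_lt (hest (u k) ⟨hu1 k, hu2 k⟩ q) ?_
    rw [← hneg]
    exact hk
  refine hunif.continuous (Eventually.frequently (Eventually.of_forall ?_))
  intro k
  exact (hcF (u k) (hJ _ ⟨hu1 k, hu2 k⟩)).const_smul (1 / Real.sqrt (rr n (u k)) : ℝ)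

end Helper89.HSF
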